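import Pool.Agent.Helper95.LN.Stmts

/-!
# Row PT2 of the sheet LN
-/

set_option autoImplicit false

namespace Pool.Agent.Helper1.LN

open MeasureTheory Filter Pool.Agent.Helper95.PW Pool.Agent.Helper95.LN

theorem nr_eq (y : R3) : nr y = ‖(WithLp.toLp 2 y : EuclideanSpace ℝ (Fin 3))‖ := by
  rw [EuclideanSpace.norm_eq, Fin.sum_univ_three]
  simp only [Real.norm_eq_abs, sq_abs]
  rfl

theorem nr_tri (x y : R3) : nr (x + y) ≤ nr x + nr y := by
  rw [nr_eq, nr_eq, nr_eq, WithLp.toLp_add]
  exact norm_add_le _ _

theorem nr_sub_comm' (x y : R3) : nr (x - y) = nr (y - x) := by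
  rw [nr_eq, nr_eq, WithLp.toLp_sub, WithLp.toLp_sub]
  exact norm_sub_rev _ _

theorem nr_nn (y : R3) : 0 ≤ nr y := Real.sqrt_nonneg _

/-- triangle inequality with three points -/
theorem nr_three (x y z : R3) : nr (x - z) ≤ nr (x - y) + nr (y - z) := by
  have h := nr_tri (x - y) (y - z)
  rwa [sub_add_sub_cancel] at h

theorem norm_le_nr (y : R3) : ‖y‖ ≤ nr y := by
  rw [pi_norm_le_iff_of_nonneg (nr_nn y)]
  intro i
  rw [Real.norm_eq_abs]
  apply Real.abs_le_sqrt
  have h0 := sq_nonneg (y 0)
  have h1 := sq_nonneg (y 1)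
  have h2 := sq_nonneg (y 2)
  fin_cases i
  · change y 0 ^ 2 ≤ _
    linarith
  · change y 1 ^ 2 ≤ _
    linarith
  · change y 2 ^ 2 ≤ _
    linarith

theorem et_int (hP : ST_PHC) (a : ℝ) (ha : 0 < a) : Integrable (et a) := by
  obtain ⟨_, _, _, h⟩ := hP
  obtain ⟨h1, _, h3, _⟩ := h a ha
  refine h1.continuous.integrable_of_hasCompactSupport ?_
  refine HasCompactSupport.intro (isCompact_closedBall (0 : R3) a) ?_
  intro y hy
  rw [Metric.mem_closedBall, dist_zero_right, not_le] at hy
  exact h3 y (hy.le.trans (norm_le_nr y))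

theorem et_tr_int (hP : ST_PHC) (a : ℝ) (ha : 0 < a) (X : R3) :
    Integrable (fun x : R3 => et a (x - X)) := (et_int hP a ha).comp_sub_right X

theorem et_tr (hP : ST_PHC) (a : ℝ) (ha : 0 < a) (X : R3) : ∫ x, et a (x - X) = kap := by
  rw [integral_sub_right_eq_self (et a) X]
  obtain ⟨_, _, _, h⟩ := hP
  exact (h a ha).2.2.2.2.2

theorem PT2 (h1 : ST_PT1) (hP : ST_PHC) : ST_PT2 := by
  intro a a' X0 Y0 ha ha'
  have hk : 0 < kap := hP.2.1
  have hQ := hP.2.2.2
  have e1 : ∀ b : ℝ, 0 < b → ∀ y : R3, et b y ≠ 0 → b / 2 < nr y ∧ nr y < b ∧ 0 < et b y := by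
    intro b hb y hy
    obtain ⟨_, q2, q3, q4, _, _⟩ := hQ b hb
    refine ⟨?_, ?_, lt_of_le_of_ne (q2 y) (Ne.symm hy)⟩
    · by_contra hc
      exact hy (q4 y (not_lt.1 hc))
    · by_contra hc
      exact hy (q3 y (not_lt.1 hc))
  have nonneg : ∀ b : ℝ, 0 < b → ∀ y : R3, 0 ≤ et b y := fun b hb => (hQ b hb).2.1
  -- the inner integral
  have inner : ∀ x W : R3, (et a (x - X0) ≠ 0 → 2 * a' ≤ nr (x - W)) →
      ∫ y, et a (x - X0) * et a' (y - W) / nr (x - y) = et a (x - X0) * (kap / nr (x - W)) := by
    intro x W hx
    by_cases h0 : et a (x - X0) = 0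
    · simp only [h0, zero_mul, zero_div, integral_zero]
    · have h2 := h1 a' x W ha' (hx h0)
      have h3 : (fun y : R3 => et a (x - X0) * et a' (y - W) / nr (x - y)) =
          fun y : R3 => et a (x - X0) * (et a' (y - W) / nr (y - x)) := by
        funext y
        rw [nr_sub_comm' x y, mul_div_assoc]
      rw [h3, integral_const_mul, h2]
  refine ⟨?_, ?_⟩
  · intro hd
    have h2 : ∀ x : R3, ∫ y, et a (x - X0) * et a' (y - Y0) / nr (x - y) =
        kap * (et a (x - X0) / nr (x - Y0)) := by
      intro x
      rw [inner x Y0 ?_]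
      · ring
      · intro h0
        obtain ⟨_, h3, _⟩ := e1 a ha _ h0
        have h4 := nr_three X0 x Y0
        rw [nr_sub_comm' X0 x] at h4
        linarith
    simp only [h2]
    rw [integral_const_mul, h1 a Y0 X0 ha (by rw [nr_sub_comm' Y0 X0]; linarith),
      nr_sub_comm' Y0 X0]
    ring
  · intro hd
    refine ⟨?_, ?_⟩
    · have h2 : ∀ x : R3, ∫ y, et a (x - X0) * et a' (y - X0) / nr (x - y) =
          et a (x - X0) * (kap / nr (x - X0)) := by
        intro x
        refine inner x X0 ?_
        intro h0
        obtain ⟨h3, _, _⟩ := e1 a ha _ h0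
        linarith
      simp only [h2]
      have h3 : ∫ x, et a (x - X0) * (kap * (4 / a)) = kap ^ 2 * (4 / a) := by
        rw [integral_mul_const, et_tr hP a ha X0]
        ring
      rw [← h3]
      refine integral_mono_of_nonneg ?_ ((et_tr_int hP a ha X0).mul_const _) ?_
      · refine Filter.Eventually.of_forall fun x => ?_
        exact mul_nonneg (nonneg a ha _) (div_nonneg hk.le (nr_nn _))
      · refine Filter.Eventually.of_forall fun x => ?_
        change et a (x - X0) * (kap / nr (x - X0)) ≤ et a (x - X0) * (kap * (4 / a))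
        by_cases h0 : et a (x - X0) = 0
        · rw [h0, zero_mul, zero_mul]
        · obtain ⟨h4, _, h5⟩ := e1 a ha _ h0
          refine mul_le_mul_of_nonneg_left ?_ h5.le
          rw [div_eq_mul_inv]
          refine mul_le_mul_of_nonneg_left ?_ hk.le
          rw [inv_le_comm₀ (by linarith) (by positivity), inv_div]
          linarith
    · have h2 : ∀ x : R3, ∫ y, et a' (x - X0) * et a (y - X0) / nr (x - y) ≤
          et a' (x - X0) * (kap * (4 / a)) := by
        intro x
        by_cases h0 : et a' (x - X0) = 0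
        · simp only [h0, zero_mul, zero_div, integral_zero, le_refl]
        · obtain ⟨_, h4, h5⟩ := e1 a' ha' _ h0
          have h3 : ∫ y, et a (y - X0) * (et a' (x - X0) * (4 / a)) =
              et a' (x - X0) * (kap * (4 / a)) := by
            rw [integral_mul_const, et_tr hP a ha X0]
            ring
          rw [← h3]
          refine integral_mono_of_nonneg ?_ ((et_tr_int hP a ha X0).mul_const _) ?_
          · refine Filter.Eventually.of_forall fun y => ?_
            exact div_nonneg (mul_nonneg (nonneg a' ha' _) (nonneg a ha _)) (nr_nn _)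
          · refine Filter.Eventually.of_forall fun y => ?_
            change et a' (x - X0) * et a (y - X0) / nr (x - y) ≤
              et a (y - X0) * (et a' (x - X0) * (4 / a))
            by_cases h6 : et a (y - X0) = 0
            · rw [h6, mul_zero, zero_div, zero_mul]
            · obtain ⟨h7, _, h8⟩ := e1 a ha _ h6
              have h9 := nr_three y x X0
              rw [nr_sub_comm' y x] at h9
              have h10 : a / 4 ≤ nr (x - y) := by linarith
              have h11 : 1 / nr (x - y) ≤ 4 / a := by
                rw [div_le_div_iff₀ (by linarith) ha]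
                linarith
              have h12 : et a' (x - X0) * et a (y - X0) / nr (x - y) =
                  et a' (x - X0) * et a (y - X0) * (1 / nr (x - y)) := by ring
              rw [h12]
              have h13 : et a' (x - X0) * et a (y - X0) * (1 / nr (x - y)) ≤
                  et a' (x - X0) * et a (y - X0) * (4 / a) :=
                mul_le_mul_of_nonneg_left h11 (mul_nonneg h5.le h8.le)
              linarith
      have h3 : ∫ x, et a' (x - X0) * (kap * (4 / a)) = kap ^ 2 * (4 / a) := by
        rw [integral_mul_const, et_tr hP a' ha' X0]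
        ring
      rw [← h3]
      refine integral_mono_of_nonneg ?_ ((et_tr_int hP a' ha' X0).mul_const _) ?_
      · refine Filter.Eventually.of_forall fun x => ?_
        refine integral_nonneg fun y => ?_
        exact div_nonneg (mul_nonneg (nonneg a' ha' _) (nonneg a ha _)) (nr_nn _)
      · exact Filter.Eventually.of_forall fun x => h2 x

end Pool.Agent.Helper1.LN
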